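import Pool.Agent.Lib.MP_0e8bc2_co.Cover

/-!
The excessive `[m]`-index of an `[m]`-coverable bipartite graph (in particular of a tree, see
`SimpleGraph.IsTree.isBipartite`) is the maximum of the chromatic index, of `⌈|E| / m⌉` and of the
numbers `⌈s^t / t⌉`, `1 ≤ t ≤ m - 1`, where `s^t` is the largest size of a `t`-splitting set.
-/

namespace Pool.Agent.Results.MP_0e8bc2_co.BipartiteFormula

variable {V : Type*}

/-- A finite set of edges is a matching if different members have no common vertex. -/
def IsMatching (M : Finset (Sym2 V)) : Prop :=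
  ∀ e ∈ M, ∀ e' ∈ M, ∀ v, v ∈ e → v ∈ e' → e = e'

/-- `M` is an `[m]`-matching contained in the edge set `S`: a matching with exactly `m` edges,
all of them in `S`. -/
def IsMMatching (S : Set (Sym2 V)) (m : ℕ) (M : Finset (Sym2 V)) : Prop :=
  (M : Set (Sym2 V)) ⊆ S ∧ IsMatching M ∧ M.card = m

/-- `G` is `[m]`-coverable: every edge lies in an `[m]`-matching of `G`. -/
def IsCoverable (G : SimpleGraph V) (m : ℕ) : Prop :=
  ∀ e ∈ G.edgeSet, ∃ M, IsMMatching G.edgeSet m M ∧ e ∈ M

/-- The excessive `[m]`-index: the least number of `[m]`-matchings of `G` whose union is the edge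
set of `G`. -/
noncomputable def excessiveIndex (G : SimpleGraph V) (m : ℕ) : ℕ :=
  sInf {n | ∃ F : Finset (Finset (Sym2 V)), F.card = n ∧
    (∀ M ∈ F, IsMMatching G.edgeSet m M) ∧ ∀ e ∈ G.edgeSet, ∃ M ∈ F, e ∈ M}

/-- The chromatic index: the chromatic number of the line graph. -/
noncomputable def chromaticIndex (G : SimpleGraph V) : ℕ :=
  G.lineGraph.chromaticNumber.toNat

/-- `S` is (the edge set of) a `t`-splitting set of `G`: it has a `[t+1]`-matching, and no
`[t+1]`-matching of `S` is contained in an `[m]`-matching of `G`. -/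
def IsSplitting (G : SimpleGraph V) (m t : ℕ) (S : Finset (Sym2 V)) : Prop :=
  (S : Set (Sym2 V)) ⊆ G.edgeSet ∧ (∃ M, IsMMatching (S : Set (Sym2 V)) (t + 1) M) ∧
    ∀ M, IsMMatching (S : Set (Sym2 V)) (t + 1) M → ∀ N, IsMMatching G.edgeSet m N → ¬ M ⊆ N

/-- `s^t(G)`: the largest number of edges of a `t`-splitting set (zero if there is none). -/
noncomputable def splittingNumber (G : SimpleGraph V) (m t : ℕ) : ℕ :=
  sSup {n | ∃ S, IsSplitting G m t S ∧ S.card = n}

/-- The right-hand side of the formula. -/
noncomputable def formula (G : SimpleGraph V) (m : ℕ) : ℕ :=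
  max (max (chromaticIndex G) ⌈(G.edgeSet.ncard : ℚ) / m⌉₊)
    ((Finset.Icc 1 (m - 1)).sup fun t => ⌈(splittingNumber G m t : ℚ) / t⌉₊)

theorem ceil_le {a b n : ℕ} (hb : 1 ≤ b) : ⌈(a : ℚ) / b⌉₊ ≤ n ↔ a ≤ n * b := by
  rw [Nat.ceil_le, div_le_iff₀ (by exact_mod_cast hb)]
  exact_mod_cast Iff.rfl

section

variable [Finite V] (G : SimpleGraph V)

theorem bdd (m t : ℕ) : BddAbove {n | ∃ S, IsSplitting G m t S ∧ S.card = n} := by
  classical
  have := Fintype.ofFinite V
  refine ⟨(Finset.univ : Finset (Sym2 V)).card, ?_⟩
  rintro n ⟨S, -, rfl⟩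
  exact Finset.card_le_card (Finset.subset_univ _)

theorem le_splittingNumber {m t : ℕ} {S : Finset (Sym2 V)} (h : IsSplitting G m t S) :
    S.card ≤ splittingNumber G m t :=
  le_csSup (bdd G m t) ⟨S, h, rfl⟩

omit [Finite V] in
theorem splittingNumber_le {m t b : ℕ} (h : ∀ S, IsSplitting G m t S → S.card ≤ b) :
    splittingNumber G m t ≤ b := by
  apply csSup_le'
  rintro n ⟨S, hS, rfl⟩
  exact h S hS

theorem colorable_iff (n : ℕ) : chromaticIndex G ≤ n ↔ G.lineGraph.Colorable n := by
  classical
  have := Fintype.ofFinite V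
  have : Fintype G.edgeSet := Fintype.ofFinite _
  unfold chromaticIndex
  have hne : G.lineGraph.chromaticNumber ≠ ⊤ := by
    intro h
    have := G.lineGraph.chromaticNumber_le_card
    rw [h, top_le_iff] at this
    exact absurd this (ENat.natCast_ne_top _)
  rw [← SimpleGraph.chromaticNumber_le_iff_colorable]
  constructor
  · intro h
    rw [← ENat.natCast_toNat hne]
    exact_mod_cast h
  · intro h
    exact ENat.toNat_le_of_le_natCast h

/-- The lower bound (known for every graph). -/
theorem lower {m : ℕ} (hm : 1 ≤ m) (hc : IsCoverable G m) : formula G m ≤ excessiveIndex G m := by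
  classical
  have := Fintype.ofFinite V
  have hne : {n | ∃ F : Finset (Finset (Sym2 V)), F.card = n ∧
    (∀ M ∈ F, IsMMatching G.edgeSet m M) ∧ ∀ e ∈ G.edgeSet, ∃ M ∈ F, e ∈ M}.Nonempty := by
    refine ⟨_, Finset.univ.filter (fun M => IsMMatching G.edgeSet m M), rfl, ?_, ?_⟩
    · intro M hM
      exact (Finset.mem_filter.1 hM).2
    · intro e he
      obtain ⟨M, hM, heM⟩ := hc e he
      exact ⟨M, Finset.mem_filter.2 ⟨Finset.mem_univ _, hM⟩, heM⟩
  obtain ⟨F, hFc, hF, hcov⟩ := Nat.sInf_mem hne
  change F.card = excessiveIndex G m at hFc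
  rw [← hFc]
  unfold formula
  apply max_le
  · apply max_le
    · rw [colorable_iff]
      have hch : ∀ e : G.edgeSet, ∃ M : F, (e : Sym2 V) ∈ (M : Finset (Sym2 V)) := by
        intro e
        obtain ⟨M, hM, he⟩ := hcov e e.2
        exact ⟨⟨M, hM⟩, he⟩
      choose c hcc using hch
      have hcol : G.lineGraph.Coloring F := SimpleGraph.Coloring.mk c (by
        intro e e' hadj heq
        rw [SimpleGraph.lineGraph_adj_iff_exists] at hadj
        obtain ⟨hne, v, hv, hv'⟩ := hadj
        apply hne
        apply Subtype.ext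
        have h1 := hcc e
        rw [heq] at h1
        exact (hF (c e') (c e').2).2.1 _ h1 _ (hcc e') v hv hv')
      have := hcol.colorable
      rwa [Fintype.card_coe] at this
    · rw [ceil_le hm]
      have h1 : G.edgeSet ⊆ ((F.biUnion id : Finset (Sym2 V)) : Set (Sym2 V)) := by
        intro e he
        obtain ⟨M, hM, heM⟩ := hcov e he
        rw [Finset.mem_coe, Finset.mem_biUnion]
        exact ⟨M, hM, heM⟩
      calc G.edgeSet.ncard ≤ ((F.biUnion id : Finset (Sym2 V)) : Set (Sym2 V)).ncard :=
            Set.ncard_le_ncard h1 (Finset.finite_toSet _)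
        _ = (F.biUnion id).card := Set.ncard_coe_finset _
        _ ≤ ∑ M ∈ F, (id M).card := Finset.card_biUnion_le
        _ = ∑ M ∈ F, m := Finset.sum_congr rfl (fun M hM => (hF M hM).2.2)
        _ = F.card * m := by rw [Finset.sum_const, smul_eq_mul]
  · apply Finset.sup_le
    intro t ht
    rw [Finset.mem_Icc] at ht
    rw [ceil_le ht.1]
    apply splittingNumber_le
    intro S hS
    have h1 : S ⊆ F.biUnion (fun M => M ∩ S) := by
      intro e he
      obtain ⟨M, hM, heM⟩ := hcov e (hS.1 he)
      rw [Finset.mem_biUnion]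
      exact ⟨M, hM, Finset.mem_inter.2 ⟨heM, he⟩⟩
    calc S.card ≤ (F.biUnion (fun M => M ∩ S)).card := Finset.card_le_card h1
      _ ≤ ∑ M ∈ F, (M ∩ S).card := Finset.card_biUnion_le
      _ ≤ ∑ M ∈ F, t := by
          apply Finset.sum_le_sum
          intro M hM
          by_contra hlt
          push Not at hlt
          obtain ⟨T, hT, hTc⟩ := Finset.exists_subset_card_eq (Nat.succ_le_of_lt hlt)
          have hTM : T ⊆ M := hT.trans Finset.inter_subset_left
          have hTS : T ⊆ S := hT.trans Finset.inter_subset_right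
          refine hS.2.2 T ⟨?_, ?_, hTc⟩ M (hF M hM) hTM
          · exact_mod_cast hTS
          · intro e he e' he' v hv hv'
            exact (hF M hM).2.1 e (hTM he) e' (hTM he') v hv hv'
      _ = F.card * t := by rw [Finset.sum_const, smul_eq_mul]

/-- The upper bound for bipartite graphs. -/
theorem upper (hG : G.IsBipartite) {m : ℕ} (hm : 1 ≤ m) (hc : IsCoverable G m) :
    excessiveIndex G m ≤ formula G m := by
  classical
  have := Fintype.ofFinite V
  have : Fintype G.edgeSet := Fintype.ofFinite _
  set k := formula G m with hk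
  have hk1 : chromaticIndex G ≤ k := (le_max_left _ _).trans (le_max_left _ _)
  have hk2 : G.edgeSet.ncard ≤ k * m := by
    rw [← ceil_le hm]
    exact (le_max_right _ _).trans (le_max_left _ _)
  have hk3 : ∀ t, 1 ≤ t → t ≤ m - 1 → splittingNumber G m t ≤ k * t := by
    intro t ht1 ht2
    rw [← ceil_le ht1]
    exact (Finset.le_sup (f := fun t : ℕ => ⌈(splittingNumber G m t : ℚ) / t⌉₊)
      (Finset.mem_Icc.2 ⟨ht1, ht2⟩)).trans (le_max_right _ _)
  rw [colorable_iff] at hk1
  obtain ⟨col⟩ := hk1
  obtain ⟨c⟩ := hG
  by_cases hE0 : G.edgeSet = ∅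
  · -- no edges
    refine (Nat.sInf_le (m := 0) ?_).trans (Nat.zero_le _)
    refine ⟨∅, rfl, by simp, ?_⟩
    intro e he
    rw [hE0] at he
    exact absurd he (Set.notMem_empty _)
  let A := {v : V // c v = 0}
  let B := {v : V // c v ≠ 0}
  let φ : A × B → Sym2 V := fun e => s((e.1 : V), (e.2 : V))
  have hφinj : Function.Injective φ := by
    rintro ⟨a, b⟩ ⟨a', b'⟩ h
    simp only [φ, Sym2.eq_iff] at h
    rcases h with ⟨h1, h2⟩ | ⟨h1, h2⟩
    · exact Prod.ext (Subtype.ext h1) (Subtype.ext h2)
    · exfalso
      have h3 := b'.2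
      rw [← h1] at h3
      exact h3 a.2
  let E : Finset (A × B) := Finset.univ.filter (fun e => G.Adj e.1 e.2)
  have hEm : ∀ e, e ∈ E ↔ φ e ∈ G.edgeSet := by
    intro e
    simp [E, φ]
  have hsurj : ∀ e ∈ G.edgeSet, ∃ e' ∈ E, φ e' = e := by
    intro e he
    induction e using Sym2.ind with
    | _ x y =>
      rw [SimpleGraph.mem_edgeSet] at he
      have hne := c.valid he
      by_cases hx : c x = 0
      · have hy : c y ≠ 0 := fun h => hne (hx.trans h.symm)
        refine ⟨(⟨x, hx⟩, ⟨y, hy⟩), ?_, rfl⟩
        simp [E, he]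
      · have hy : c y = 0 := by
          have h1 : ∀ i j : Fin 2, i ≠ j → i ≠ 0 → j = 0 := by decide
          exact h1 _ _ hne hx
        refine ⟨(⟨y, hy⟩, ⟨x, hx⟩), ?_, ?_⟩
        · simp [E, he.symm]
        · simp [φ, Sym2.eq_swap]
  clear_value E
  have hEc : E.card = G.edgeSet.ncard := by
    have h1 : G.edgeSet = ((E.image φ : Finset (Sym2 V)) : Set (Sym2 V)) := by
      ext e
      rw [Finset.mem_coe, Finset.mem_image]
      constructor
      · intro he
        obtain ⟨e', he', h2⟩ := hsurj e he
        exact ⟨e', he', h2⟩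
      · rintro ⟨e', he', rfl⟩
        exact (hEm e').1 he'
    rw [h1, Set.ncard_coe_finset, Finset.card_image_of_injective _ hφinj]
  -- matchings pulled back
  have hpull : ∀ N, IsMMatching G.edgeSet m N → ∃ N' : Finset (A × B), N' ⊆ E ∧ N'.card = m ∧
      (∀ e ∈ N', ∀ e' ∈ N', e.1 = e'.1 → e = e') ∧ (∀ e ∈ N', ∀ e' ∈ N', e.2 = e'.2 → e = e') ∧
      ∀ e, e ∈ N' ↔ φ e ∈ N := by
    intro N hN
    refine ⟨Finset.univ.filter (fun e => φ e ∈ N), ?_, ?_, ?_, ?_, ?_⟩
    · intro e he
      rw [hEm]
      exact hN.1 (Finset.mem_coe.2 (Finset.mem_filter.1 he).2)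
    · rw [← hN.2.2]
      apply Finset.card_bij (fun e _ => φ e)
      · intro e he; exact (Finset.mem_filter.1 he).2
      · intro e _ e' _ h; exact hφinj h
      · intro e he
        obtain ⟨e', -, rfl⟩ := hsurj e (hN.1 (Finset.mem_coe.2 he))
        exact ⟨e', Finset.mem_filter.2 ⟨Finset.mem_univ _, he⟩, rfl⟩
    · intro e he e' he' h
      apply hφinj
      refine hN.2.1 _ (Finset.mem_filter.1 he).2 _ (Finset.mem_filter.1 he').2 (e.1 : V) ?_ ?_
      · simp [φ]
      · simp [φ, h]
    · intro e he e' he' h
      apply hφinj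
      refine hN.2.1 _ (Finset.mem_filter.1 he).2 _ (Finset.mem_filter.1 he').2 (e.2 : V) ?_ ?_
      · simp [φ]
      · simp [φ, h]
    · intro e
      simp
  -- colour classes
  have hcolcard : ∀ (T : Finset (A × B)) (t : ℕ), T ⊆ E →
      (∀ M : Finset (Sym2 V), (M : Set (Sym2 V)) ⊆ ((T.image φ : Finset (Sym2 V)) : Set (Sym2 V)) →
        IsMatching M → M.card ≤ t) → T.card ≤ k * t := by
    intro T t hTE ht
    have hT' : ∀ e ∈ T.image φ, e ∈ G.edgeSet := by
      intro e he
      rw [Finset.mem_image] at he
      obtain ⟨e', he', rfl⟩ := he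
      exact (hEm e').1 (hTE he')
    rw [← Finset.card_image_of_injective T hφinj]
    let cl : Fin k → Finset (Sym2 V) := fun i =>
      (T.image φ).filter (fun e => ∃ h : e ∈ G.edgeSet, col ⟨e, h⟩ = i)
    have h1 : T.image φ ⊆ Finset.univ.biUnion cl := by
      intro e he
      rw [Finset.mem_biUnion]
      exact ⟨col ⟨e, hT' e he⟩, Finset.mem_univ _, Finset.mem_filter.2 ⟨he, hT' e he, rfl⟩⟩
    calc (T.image φ).card ≤ (Finset.univ.biUnion cl).card := Finset.card_le_card h1
      _ ≤ ∑ i : Fin k, (cl i).card := Finset.card_biUnion_le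
      _ ≤ ∑ i : Fin k, t := by
          apply Finset.sum_le_sum
          intro i _
          apply ht
          · intro e he
            exact Finset.mem_coe.2 (Finset.mem_filter.1 (Finset.mem_coe.1 he)).1
          · intro e he e' he' v hv hv'
            obtain ⟨-, h2, h3⟩ := Finset.mem_filter.1 he
            obtain ⟨-, h2', h3'⟩ := Finset.mem_filter.1 he'
            by_contra hne
            have hadj : G.lineGraph.Adj ⟨e, h2⟩ ⟨e', h2'⟩ := by
              rw [SimpleGraph.lineGraph_adj_iff_exists]
              exact ⟨fun h => hne (congrArg Subtype.val h), v, hv, hv'⟩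
            exact col.valid hadj (h3.trans h3'.symm)
      _ = k * t := by simp
  have hstar : ∀ (T : Finset (A × B)) (v : V), T ⊆ E → (∀ e ∈ T, v ∈ φ e) → T.card ≤ k := by
    intro T v hTE hv
    have := hcolcard T 1 hTE (by
      intro M hM hMm
      rw [Finset.card_le_one]
      intro e he e' he'
      have h1 := hM (Finset.mem_coe.2 he)
      have h2 := hM (Finset.mem_coe.2 he')
      rw [Finset.mem_coe, Finset.mem_image] at h1 h2
      obtain ⟨x, hx, rfl⟩ := h1
      obtain ⟨y, hy, rfl⟩ := h2
      exact hMm _ he _ he' v (hv x hx) (hv y hy))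
    omega
  -- an m-matching
  obtain ⟨e0, he0⟩ := Set.nonempty_iff_ne_empty.2 hE0
  obtain ⟨N0, hN0, -⟩ := hc e0 he0
  obtain ⟨N0', hN0E, hN0c, hN01, hN02, -⟩ := hpull N0 hN0
  have hmA : m ≤ Fintype.card A := by
    rw [← hN0c, ← Finset.card_image_of_injOn (s := N0') (f := Prod.fst)
      (fun e he e' he' h => hN01 e he e' he' h)]
    exact Finset.card_le_univ _
  have hmB : m ≤ Fintype.card B := by
    rw [← hN0c, ← Finset.card_image_of_injOn (s := N0') (f := Prod.snd)
      (fun e he e' he' h => hN02 e he e' he' h)]
    exact Finset.card_le_univ _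
  -- Hall's condition
  have hHall : ∀ S : Finset A, ∑ a ∈ S, (k - (E.filter (fun e => e.1 = a)).card) ≤
      k * (Fintype.card A - m) + ∑ b ∈ (Finset.univ : Finset B).filter
        (fun b => ∃ a ∈ S, (a, b) ∈ E), (k - (E.filter (fun e => e.2 = b)).card) := by
    intro S
    set NS := (Finset.univ : Finset B).filter (fun b => ∃ a ∈ S, (a, b) ∈ E) with hNS
    set SC := E.filter (fun e => e.1 ∉ S ∧ e.2 ∈ NS) with hSC
    have hSCE : SC ⊆ E := Finset.filter_subset _ _
    have hSCm : ∀ e, e ∈ SC ↔ e ∈ E ∧ e.1 ∉ S ∧ e.2 ∈ NS := by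
      intro e
      rw [hSC, Finset.mem_filter]
    -- number of vertices in the cover
    set tc := (Fintype.card A - S.card) + NS.card with htc
    have hScard : S.card ≤ Fintype.card A := Finset.card_le_univ _
    have hbound : ∀ N' : Finset (A × B), N' ⊆ E →
        (∀ e ∈ N', ∀ e' ∈ N', e.1 = e'.1 → e = e') →
        (∀ e ∈ N', ∀ e' ∈ N', e.2 = e'.2 → e = e') → N'.card + (N' ∩ SC).card ≤ tc := by
      intro N' hN'E h1 h2
      set X1 := N'.filter (fun e => e.1 ∉ S) with hX1
      set X2 := N'.filter (fun e => e.2 ∈ NS) with hX2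
      have hU : X1 ∪ X2 = N' := by
        ext e
        rw [Finset.mem_union, hX1, hX2, Finset.mem_filter, Finset.mem_filter]
        constructor
        · rintro (h | h) <;> exact h.1
        · intro he
          by_cases hs : e.1 ∈ S
          · right
            refine ⟨he, ?_⟩
            rw [hNS, Finset.mem_filter]
            exact ⟨Finset.mem_univ _, e.1, hs, hN'E he⟩
          · left
            exact ⟨he, hs⟩
      have hI : X1 ∩ X2 = N' ∩ SC := by
        ext e
        rw [Finset.mem_inter, hX1, hX2, Finset.mem_filter, Finset.mem_filter, Finset.mem_inter,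
          hSCm]
        constructor
        · rintro ⟨⟨h3, h4⟩, -, h5⟩
          exact ⟨h3, hN'E h3, h4, h5⟩
        · rintro ⟨h3, -, h4, h5⟩
          exact ⟨⟨h3, h4⟩, h3, h5⟩
      have hc1 : X1.card ≤ Fintype.card A - S.card := by
        rw [← Finset.card_image_of_injOn (s := X1) (f := Prod.fst)
          (fun e he e' he' h => h1 e (Finset.mem_filter.1 he).1 e' (Finset.mem_filter.1 he').1 h)]
        have h3 : X1.image Prod.fst ⊆ Finset.univ \ S := by
          intro a ha
          rw [Finset.mem_image] at ha
          obtain ⟨e, he, rfl⟩ := ha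
          rw [Finset.mem_sdiff]
          exact ⟨Finset.mem_univ _, (Finset.mem_filter.1 he).2⟩
        have h4 := Finset.card_le_card h3
        rwa [Finset.card_sdiff_of_subset (Finset.subset_univ _), Finset.card_univ] at h4
      have hc2 : X2.card ≤ NS.card := by
        rw [← Finset.card_image_of_injOn (s := X2) (f := Prod.snd)
          (fun e he e' he' h => h2 e (Finset.mem_filter.1 he).1 e' (Finset.mem_filter.1 he').1 h)]
        apply Finset.card_le_card
        intro b hb
        rw [Finset.mem_image] at hb
        obtain ⟨e, he, rfl⟩ := hb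
        exact (Finset.mem_filter.1 he).2
      have h5 := Finset.card_union_add_card_inter X1 X2
      rw [hU, hI] at h5
      omega
    have hmtc : m ≤ tc := by
      have := hbound N0' hN0E hN01 hN02
      omega
    -- the key estimate
    have hkey : SC.card ≤ k * (tc - m) := by
      rcases Nat.eq_zero_or_pos (tc - m) with ht0 | ht0
      · have : SC = ∅ := by
          rw [Finset.eq_empty_iff_forall_notMem]
          intro e he
          obtain ⟨N, hN, heN⟩ := hc (φ e) ((hEm e).1 (hSCE he))
          obtain ⟨N', hN'E, hN'c, hN'1, hN'2, hN'm⟩ := hpull N hN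
          have h1 := hbound N' hN'E hN'1 hN'2
          have h2 : 0 < (N' ∩ SC).card :=
            Finset.card_pos.2 ⟨e, Finset.mem_inter.2 ⟨(hN'm e).2 heN, he⟩⟩
          omega
        rw [this]
        simp
      · by_cases htm : tc - m ≤ m - 1
        · by_cases hex : ∃ M, IsMMatching ((SC.image φ : Finset (Sym2 V)) : Set (Sym2 V))
              (tc - m + 1) M
          · have hsp : IsSplitting G m (tc - m) (SC.image φ) := by
              refine ⟨?_, hex, ?_⟩
              · intro e he
                rw [Finset.mem_coe, Finset.mem_image] at he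
                obtain ⟨e', he', rfl⟩ := he
                exact (hEm e').1 (hSCE he')
              · intro M hM N hN hMN
                obtain ⟨N', hN'E, hN'c, hN'1, hN'2, hN'm⟩ := hpull N hN
                have h1 := hbound N' hN'E hN'1 hN'2
                have h2 : M ⊆ (N' ∩ SC).image φ := by
                  intro e he
                  have h3 := hM.1 (Finset.mem_coe.2 he)
                  rw [Finset.mem_coe, Finset.mem_image] at h3
                  obtain ⟨e', he', rfl⟩ := h3
                  rw [Finset.mem_image]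
                  exact ⟨e', Finset.mem_inter.2 ⟨(hN'm e').2 (hMN he), he'⟩, rfl⟩
                have h4 := Finset.card_le_card h2
                rw [hM.2.2, Finset.card_image_of_injective _ hφinj] at h4
                omega
            have h5 := le_splittingNumber G hsp
            rw [Finset.card_image_of_injective _ hφinj] at h5
            exact h5.trans (hk3 _ ht0 htm)
          · apply hcolcard SC _ hSCE
            intro M hM hMm
            by_contra hlt
            push Not at hlt
            obtain ⟨T, hTM, hTc⟩ := Finset.exists_subset_card_eq (Nat.succ_le_of_lt hlt)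
            apply hex
            refine ⟨T, ?_, ?_, hTc⟩
            · intro e he
              exact hM (hTM he)
            · intro e he e' he' v hv hv'
              exact hMm e (hTM he) e' (hTM he') v hv hv'
        · calc SC.card ≤ E.card := Finset.card_le_card hSCE
            _ ≤ k * m := by rw [hEc]; exact hk2
            _ ≤ k * (tc - m) := Nat.mul_le_mul_left _ (by omega)
    -- bookkeeping
    have hsumS : ∑ a ∈ S, (E.filter (fun e => e.1 = a)).card
        = (E.filter (fun e => e.1 ∈ S)).card := by
      rw [Finset.card_eq_sum_card_fiberwise (f := fun e : A × B => e.1)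
        (s := E.filter (fun e => e.1 ∈ S)) (t := S)
        (fun e he => (Finset.mem_filter.1 (Finset.mem_coe.1 he)).2)]
      apply Finset.sum_congr rfl
      intro a ha
      rw [Finset.filter_filter]
      apply congrArg Finset.card
      apply Finset.filter_congr
      intro e _
      constructor
      · intro h; exact ⟨h ▸ ha, h⟩
      · intro h; exact h.2
    have hsumN : ∑ b ∈ NS, (E.filter (fun e => e.2 = b)).card
        = (E.filter (fun e => e.2 ∈ NS)).card := by
      rw [Finset.card_eq_sum_card_fiberwise (f := fun e : A × B => e.2)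
        (s := E.filter (fun e => e.2 ∈ NS)) (t := NS)
        (fun e he => (Finset.mem_filter.1 (Finset.mem_coe.1 he)).2)]
      apply Finset.sum_congr rfl
      intro b hb
      rw [Finset.filter_filter]
      apply congrArg Finset.card
      apply Finset.filter_congr
      intro e _
      constructor
      · intro h; exact ⟨h ▸ hb, h⟩
      · intro h; exact h.2
    have hsplit : (E.filter (fun e => e.2 ∈ NS)).card
        = (E.filter (fun e => e.1 ∈ S)).card + SC.card := by
      have h1 : E.filter (fun e => e.2 ∈ NS) = E.filter (fun e => e.1 ∈ S) ∪ SC := by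
        ext e
        rw [Finset.mem_union, hSCm, Finset.mem_filter (p := fun e : A × B => e.1 ∈ S),
          Finset.mem_filter (p := fun e : A × B => e.2 ∈ NS)]
        constructor
        · rintro ⟨h1, h2⟩
          by_cases hs : e.1 ∈ S
          · left; exact ⟨h1, hs⟩
          · right; exact ⟨h1, hs, h2⟩
        · rintro (⟨h1, h2⟩ | ⟨h1, -, h2⟩)
          · refine ⟨h1, ?_⟩
            rw [hNS, Finset.mem_filter]
            exact ⟨Finset.mem_univ _, e.1, h2, h1⟩
          · exact ⟨h1, h2⟩
      rw [h1, Finset.card_union_of_disjoint]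
      rw [Finset.disjoint_left]
      intro e h2 h3
      exact ((hSCm e).1 h3).2.1 (Finset.mem_filter.1 h2).2
    have hdA : ∀ a, (E.filter (fun e => e.1 = a)).card ≤ k := by
      intro a
      apply hstar _ (a : V) (Finset.filter_subset _ _)
      intro e he
      rw [← (Finset.mem_filter.1 he).2]
      simp [φ]
    have hdB : ∀ b, (E.filter (fun e => e.2 = b)).card ≤ k := by
      intro b
      apply hstar _ (b : V) (Finset.filter_subset _ _)
      intro e he
      rw [← (Finset.mem_filter.1 he).2]
      simp [φ]
    have e1 : ∑ a ∈ S, (k - (E.filter (fun e => e.1 = a)).card)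
        + (E.filter (fun e => e.1 ∈ S)).card = S.card * k := by
      rw [← hsumS, ← Finset.sum_add_distrib,
        Finset.sum_congr rfl (fun a _ => Nat.sub_add_cancel (hdA a)), Finset.sum_const,
        smul_eq_mul]
    have e2 : ∑ b ∈ NS, (k - (E.filter (fun e => e.2 = b)).card)
        + (E.filter (fun e => e.2 ∈ NS)).card = NS.card * k := by
      rw [← hsumN, ← Finset.sum_add_distrib,
        Finset.sum_congr rfl (fun a _ => Nat.sub_add_cancel (hdB a)), Finset.sum_const,
        smul_eq_mul]
    have e3 : k * (tc - m) + m * k = k * (Fintype.card A - m) + m * k + NS.card * k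
        - S.card * k := by
      have h1 : k * (tc - m) + m * k = tc * k := by
        rw [mul_comm k, ← add_mul, Nat.sub_add_cancel hmtc]
      have h2 : k * (Fintype.card A - m) + m * k = Fintype.card A * k := by
        rw [mul_comm k, ← add_mul, Nat.sub_add_cancel hmA]
      have h3 : (Fintype.card A - S.card) * k + S.card * k = Fintype.card A * k := by
        rw [← add_mul, Nat.sub_add_cancel hScard]
      rw [h1, h2, htc, add_mul]
      omega
    have e4 : S.card * k ≤ Fintype.card A * k := Nat.mul_le_mul_right _ hScard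
    have h2 : k * (Fintype.card A - m) + m * k = Fintype.card A * k := by
      rw [mul_comm k, ← add_mul, Nat.sub_add_cancel hmA]
    omega
  obtain ⟨Mt, hMt, hcov⟩ := Pool.Agent.Lib.MP_0e8bc2_co.cover E m k hmA hmB
    (by
      intro a
      apply hstar _ (a : V) (Finset.filter_subset _ _)
      intro e he
      rw [← (Finset.mem_filter.1 he).2]
      simp [φ])
    (by
      intro b
      apply hstar _ (b : V) (Finset.filter_subset _ _)
      intro e he
      rw [← (Finset.mem_filter.1 he).2]
      simp [φ])
    (by rw [hEc]; exact hk2) hHall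
  refine (Nat.sInf_le (m := (Finset.univ.image (fun i => (Mt i).image φ)).card) ?_).trans ?_
  · refine ⟨Finset.univ.image (fun i => (Mt i).image φ), rfl, ?_, ?_⟩
    · intro M hM
      rw [Finset.mem_image] at hM
      obtain ⟨i, -, rfl⟩ := hM
      obtain ⟨h1, h2, h3, h4⟩ := hMt i
      refine ⟨?_, ?_, ?_⟩
      · intro e he
        rw [Finset.mem_coe, Finset.mem_image] at he
        obtain ⟨e', he', rfl⟩ := he
        exact (hEm e').1 (h1 he')
      · intro e he e' he' v hv hv'
        rw [Finset.mem_image] at he he'
        obtain ⟨x, hx, rfl⟩ := he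
        obtain ⟨y, hy, rfl⟩ := he'
        simp only [φ, Sym2.mem_iff] at hv hv'
        have : x = y := by
          rcases hv with hv | hv <;> rcases hv' with hv' | hv'
          · exact h3 x hx y hy (Subtype.ext (hv.symm.trans hv'))
          · exfalso
            have h5 := y.2.2
            rw [← hv', hv] at h5
            exact h5 x.1.2
          · exfalso
            have h5 := x.2.2
            rw [← hv, hv'] at h5
            exact h5 y.1.2
          · exact h4 x hx y hy (Subtype.ext (hv.symm.trans hv'))
        rw [this]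
      · rw [Finset.card_image_of_injective _ hφinj, h2]
    · intro e he
      obtain ⟨e', he', rfl⟩ := hsurj e he
      obtain ⟨i, hi⟩ := hcov e' he'
      exact ⟨_, Finset.mem_image.2 ⟨i, Finset.mem_univ _, rfl⟩, Finset.mem_image_of_mem _ hi⟩
  · calc (Finset.univ.image (fun i => (Mt i).image φ)).card ≤ (Finset.univ : Finset (Fin k)).card :=
        Finset.card_image_le
      _ = k := by simp

end

/-- For every `[m]`-coverable finite bipartite graph (in particular for every tree) the excessive
`[m]`-index equals `max {χ', ⌈|E| / m⌉, s^1, ⌈s^2 / 2⌉, ..., ⌈s^(m-1) / (m-1)⌉}`. -/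
theorem result {V : Type*} [Finite V] (G : SimpleGraph V) (hG : G.IsBipartite) (m : ℕ)
    (hm : 1 ≤ m) (hc : IsCoverable G m) : excessiveIndex G m = formula G m :=
  le_antisymm (upper G hG hm hc) (lower G hm hc)

/-- The case of trees. -/
theorem result_tree {V : Type*} [Finite V] (T : SimpleGraph V) (hT : T.IsTree) (m : ℕ)
    (hm : 1 ≤ m) (hc : IsCoverable T m) : excessiveIndex T m = formula T m :=
  result T hT.isBipartite m hm hc

end Pool.Agent.Results.MP_0e8bc2_co.BipartiteFormula
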